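import Pool.Agent.HaefligerClasses.Main

/-!
# Pontrjagin classes of Haefliger structures in degrees up to `4 q / 3`

Let `F` be an invariant symmetric form of degree `d = e + 1` on `gl_q(ℝ)` which does not vanish at
the element `x` of the Lie algebra of the standard maximal torus of `SO(q)`. If `3 d ≤ 2 q`, or if
the number of nonzero coordinates of `x` plus `d` is at most `q`, then there is a codimension `q`
Haefliger structure with oriented normal bundle on a manifold on which the characteristic class
of `F` (of degree `2 d`) does not vanish.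
-/

namespace Pool.Agent.Results.MP_edd9c2_gt.PontrjaginRange

open Pool.Agent.HaefligerClasses

theorem result (q e : ℕ) (F : InvariantForm (Fin q → ℝ) (e + 1)) (x : Fin (q / 2) → ℝ)
    (hx : F.toFun (fun _ => torusElement q x) ≠ 0)
    (h : 3 * (e + 1) ≤ 2 * q ∨ (Finset.univ.filter fun j => x j ≠ 0).card + (e + 1) ≤ q) :
    ∃ (E : Type) (_ : NormedAddCommGroup E) (_ : NormedSpace ℝ E) (_ : FiniteDimensional ℝ E)
      (Λ : Type) (_ : AddGroup Λ) (M : QuotientManifold E Λ) (H : HaefligerStructure M (Fin q → ℝ))
      (c : NormalConnection H), ¬ ChernWeilExact c F := by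
  by_contra hcon
  refine Pool.Agent.HaefligerClasses.main q e F x hx h ?_
  intro E i1 i2 i3 Λ i4 M H c
  by_contra hc
  exact hcon ⟨E, i1, i2, i3, Λ, i4, M, H, c, hc⟩

end Pool.Agent.Results.MP_edd9c2_gt.PontrjaginRange
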